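import Pool.Agent.helper99.PLR.Spec

set_option autoImplicit false

open scoped Classical

namespace Pool.Agent.PLR

open Finset
open Pool.Agent.helper65.HC (V IsEig IsTop lam)
open Pool.Agent.helper9.HQ (Fam Dn E N Le Eig lk)
open Pool.Agent.helper9.HX (Ef)
open Pool.Agent.helper9.HLR (cel Lc)

noncomputable section

theorem CLB_N_nonneg {d : ℕ} (U : Fam d) (f : Finset (Fin d) → ℝ) : 0 ≤ N U f :=
  Finset.sum_nonneg fun _ _ => sq_nonneg _

theorem CLB_mono {d : ℕ} {U : Fam d} {a b : ℝ} (h : Le U a) (hab : a ≤ b) : Le U b :=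
  fun f => (h f).trans (mul_le_mul_of_nonneg_right hab (CLB_N_nonneg U f))

theorem CLB_Nsub {d : ℕ} {U W : Fam d} (f : Finset (Fin d) → ℝ) (h : U ⊆ W) : N U f ≤ N W f :=
  Finset.sum_le_sum_of_subset_of_nonneg h fun _ _ _ => sq_nonneg _

theorem CLB_lo_dn {d k : ℕ} {U : Fam d} (hU : Dn U) : Dn (loK k U) := by
  intro x hx y hy
  simp only [loK, mem_filter] at hx ⊢
  exact ⟨hU x hx.1 y hy, (Finset.card_le_card hy).trans hx.2⟩

theorem CLB_lk_dn {d : ℕ} {U : Fam d} (hU : Dn U) (i : Fin d) : Dn (lk i U) := by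
  intro x hx y hy
  simp only [lk, mem_filter] at hx ⊢
  exact ⟨hU x hx.1 y hy, fun h => hx.2.1 (hy h), hU _ hx.2.2 _ (Finset.insert_subset_insert _ hy)⟩

theorem CLB_ball_N {d k : ℕ} {U : Fam d} (f : Finset (Fin d) → ℝ) :
    N (ball k d) (fun x => if x ∈ loK k U then f x else 0) = N (loK k U) f := by
  unfold N
  have hsub : loK k U ⊆ ball k d := by
    intro x hx
    simp only [loK, ball, mem_filter, mem_univ, true_and] at hx ⊢
    exact hx.2
  rw [← Finset.sum_subset hsub]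
  · refine Finset.sum_congr rfl fun x hx => ?_
    beta_reduce
    rw [if_pos hx]
  · intro x _ hx
    beta_reduce
    rw [if_neg hx]
    ring

theorem CLB_ball_E {d k : ℕ} {U : Fam d} (hU : Dn U) (f : Finset (Fin d) → ℝ) :
    E (ball k d) (fun x => if x ∈ loK k U then f x else 0) = E (loK k U) f := by
  unfold E
  have hsub : loK k U ⊆ ball k d := by
    intro x hx
    simp only [loK, ball, mem_filter, mem_univ, true_and] at hx ⊢
    exact hx.2
  congr 1
  rw [← Finset.sum_subset hsub]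
  · refine Finset.sum_congr rfl fun x hx => Finset.sum_congr rfl fun i _ => ?_
    beta_reduce
    rw [if_pos hx, if_pos (CLB_lo_dn hU x hx _ (Finset.erase_subset i x))]
  · intro x _ hx
    refine Finset.sum_eq_zero fun i _ => ?_
    beta_reduce
    rw [if_neg hx]
    ring

theorem CLB_q (k : ℕ) (F kap l d n : ℝ) (hF : 0 ≤ F) (hk : 0 < kap) (hd : 0 < d) (hl : √d / 2 ≤ l)
    (hn : 0 ≤ n) : F * n / (kap * l) ^ (2 * (k + 1)) ≤
      F / (kap ^ 2 / 4) ^ (k + 1) * (n / d ^ (k + 1)) := by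
  have hs : 0 < √d := Real.sqrt_pos.2 hd
  have hs2 : √d ^ 2 = d := Real.sq_sqrt hd.le
  have hl0 : 0 < l := by linarith
  have h1 : kap ^ 2 / 4 * d ≤ (kap * l) ^ 2 := by
    have h2 : (√d / 2) ^ 2 ≤ l ^ 2 := pow_le_pow_left₀ (by positivity) hl 2
    have h3 : (√d / 2) ^ 2 = d / 4 := by rw [div_pow, hs2]; norm_num
    rw [h3] at h2
    have h4 : kap ^ 2 * (d / 4) ≤ kap ^ 2 * l ^ 2 := mul_le_mul_of_nonneg_left h2 (by positivity)
    nlinarith
  have h5 : (kap ^ 2 / 4 * d) ^ (k + 1) ≤ (kap * l) ^ (2 * (k + 1)) := by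
    rw [pow_mul]
    exact pow_le_pow_left₀ (by positivity) h1 _
  have h6 : 0 < (kap ^ 2 / 4 * d) ^ (k + 1) := by positivity
  calc F * n / (kap * l) ^ (2 * (k + 1)) ≤ F * n / (kap ^ 2 / 4 * d) ^ (k + 1) :=
        div_le_div_of_nonneg_left (by positivity) h6 h5
    _ = _ := by rw [mul_pow, div_mul_div_comm]

/-- the scalar part: from the inequality for `X` -/
theorem CLB_scal (h s tau c c₁ X v C₃ D l N₁ : ℝ) (hs : 0 < s) (hv : 0 ≤ v) (htau : 0 ≤ tau)
    (hc : 0 ≤ c) (hcc : 2 * c ≤ c₁) (hX : 0 ≤ X) (hN : 1 / 2 ≤ N₁)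
    (hXX : X ≤ C₃ * v + 4 * h * (√(c * tau + X) * √(D * v))) (hD : 0 ≤ D)
    (hl : l * N₁ ≤ (h - c₁ * tau) * s * N₁ + X * s) :
    l ≤ (h - c * tau + 2 * (4 / 3 * (C₃ + 16 * h ^ 2 * D)) * v) * s := by
  have hct : 0 ≤ c * tau := mul_nonneg hc htau
  set a := √(c * tau + X) with ha
  set b := √(D * v) with hb
  have ha2 : a ^ 2 = c * tau + X := Real.sq_sqrt (by linarith)
  have hb2 : b ^ 2 = D * v := Real.sq_sqrt (mul_nonneg hD hv)
  have h1 : 4 * h * (a * b) ≤ a ^ 2 / 4 + 16 * h ^ 2 * b ^ 2 := by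
    nlinarith [sq_nonneg (a / 2 - 4 * h * b)]
  rw [ha2, hb2] at h1
  have h2 : X ≤ 4 / 3 * (C₃ + 16 * h ^ 2 * D) * v + c * tau / 3 := by nlinarith
  have h3 : (l - (h - c₁ * tau) * s) * N₁ ≤ X * s := by linarith
  have h4 : l - (h - c₁ * tau) * s ≤ 2 * (X * s) := by
    have hXs : 0 ≤ X * s := mul_nonneg hX hs.le
    by_contra hcon
    push Not at hcon
    have h5 : 0 < l - (h - c₁ * tau) * s := by linarith
    nlinarith
  have h6 : 2 * (X * s) ≤ 2 * ((4 / 3 * (C₃ + 16 * h ^ 2 * D) * v + c * tau / 3) * s) := by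
    have := mul_le_mul_of_nonneg_right h2 hs.le
    linarith
  have h7 : (2 * c * tau) ≤ c₁ * tau := mul_le_mul_of_nonneg_right hcc htau
  have h8 : (h - c₁ * tau + 2 * (4 / 3 * (C₃ + 16 * h ^ 2 * D) * v + c * tau / 3)) * s ≤
      (h - c * tau + 2 * (4 / 3 * (C₃ + 16 * h ^ 2 * D)) * v) * s := by
    refine mul_le_mul_of_nonneg_right ?_ hs.le
    nlinarith
  linarith

theorem CLB_first {d k : ℕ} (U : Fam d) (f : Finset (Fin d) → ℝ) :
    ∑ x ∈ U.filter (fun x => x.card = k + 1), f x ≤ √(U.card : ℝ) * √(N (hiK k U) f) := by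
  set S := U.filter (fun x => x.card = k + 1) with hS
  have h1 : (∑ x ∈ S, f x) ^ 2 ≤ S.card * ∑ x ∈ S, f x ^ 2 := sq_sum_le_card_mul_sum_sq
  have h2 : (S.card : ℝ) ≤ U.card := by
    exact_mod_cast Finset.card_le_card (Finset.filter_subset _ _)
  have h3 : ∑ x ∈ S, f x ^ 2 ≤ N (hiK k U) f := by
    refine CLB_Nsub (U := S) (W := hiK k U) f ?_
    intro x hx
    simp only [hS, hiK, mem_filter] at hx ⊢
    exact ⟨hx.1, by omega⟩
  have h0 : 0 ≤ ∑ x ∈ S, f x ^ 2 := Finset.sum_nonneg fun _ _ => sq_nonneg _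
  rw [← Real.sqrt_mul (Nat.cast_nonneg _)]
  refine Real.le_sqrt_of_sq_le (h1.trans ?_)
  exact mul_le_mul h2 h3 h0 (Nat.cast_nonneg _)

theorem CLB_B {d k : ℕ} (U : Fam d) (f : Finset (Fin d) → ℝ) (w : ℝ) :
    Bk k U f = w * ((k : ℝ) + 1) * ∑ x ∈ U.filter (fun x => x.card = k + 1), f x +
      ∑ x ∈ U.filter (fun x => x.card = k + 1), ∑ i ∈ x, f x * (f (x.erase i) - w) := by
  unfold Bk
  rw [Finset.mul_sum, ← Finset.sum_add_distrib]
  refine Finset.sum_congr rfl fun x hx => ?_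
  simp only [mem_filter] at hx
  have h1 : ∑ i ∈ x, f x * (f (x.erase i) - w) = ∑ i ∈ x, f x * f (x.erase i) - (k + 1) * (w * f x) := by
    rw [show ((k : ℝ) + 1) * (w * f x) = ∑ _i ∈ x, w * f x by
      rw [Finset.sum_const, nsmul_eq_mul, hx.2]; push_cast; ring, ← Finset.sum_sub_distrib]
    refine Finset.sum_congr rfl fun i _ => by ring
  rw [h1]
  ring

theorem CLB_gapk {d k : ℕ} {U : Fam d} (he : ∅ ∈ U) (f : Finset (Fin d) → ℝ) :
    ∑ y ∈ U.filter (fun y => y.card = k), (f y - f ∅ * wt k d k) ^ 2 ≤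
      ∑ x ∈ ball k d, ((if x ∈ loK k U then f x else 0) -
        (if (∅ : Finset (Fin d)) ∈ loK k U then f ∅ else 0) * wt k d x.card) ^ 2 := by
  have h0 : (∅ : Finset (Fin d)) ∈ loK k U := by
    simp only [loK, mem_filter]
    exact ⟨he, by simp⟩
  rw [if_pos h0]
  have hsub : U.filter (fun y => y.card = k) ⊆ ball k d := by
    intro x hx
    simp only [ball, mem_filter, mem_univ, true_and] at hx ⊢
    omega
  calc ∑ y ∈ U.filter (fun y => y.card = k), (f y - f ∅ * wt k d k) ^ 2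
      = ∑ y ∈ U.filter (fun y => y.card = k), ((if y ∈ loK k U then f y else 0) -
        f ∅ * wt k d y.card) ^ 2 := by
        refine Finset.sum_congr rfl fun y hy => ?_
        simp only [mem_filter] at hy
        have h1 : y ∈ loK k U := by
          simp only [loK, mem_filter]
          exact ⟨hy.1, by omega⟩
        rw [if_pos h1, hy.2]
    _ ≤ _ := Finset.sum_le_sum_of_subset_of_nonneg hsub fun _ _ _ => sq_nonneg _

theorem CLB (hEV : Pool.Agent.helper9.HQ.EV_stmt) (hHZP : HZP_stmt) (hWTS : WTS_stmt)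
    (hGS : GS_stmt) (hGAP : GAP_stmt) (hA1 : A1_stmt) (hLCK : LCK_stmt) (hBIP : BIP_stmt)
    (hCTK : CTK_stmt) (hCLA : CLA_stmt) : CLB_stmt := by
  intro k hk kap hkap0 hkap1
  obtain ⟨cA, thA, hcA0, hcA1, hthA, dA, hA⟩ := hCLA k hk kap hkap0 hkap1
  obtain ⟨cW, CW, hcW, hCW, hW⟩ := hWTS k
  obtain ⟨CG, hCG, hG⟩ := hGAP k
  obtain ⟨c₁, hc₁0, hc₁1, hA1⟩ := hA1 k
  obtain ⟨_, _, hh1, _⟩ := hHZP k
  have hh : 1 ≤ hz (k + 1) := hh1 hk
  set h := hz (k + 1) with hhdef
  have hh0 : 0 < h := by linarith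
  set kap₂ := cA / (2 * h) with hkap₂
  have hkap₂0 : 0 < kap₂ := by positivity
  have hkap₂h : kap₂ * h = cA / 2 := by rw [hkap₂]; field_simp
  set F : ℝ := ((k + 1).factorial : ℝ) ^ 2 with hF
  have hF0 : 0 < F := by positivity
  set C₁ := F / (kap₂ ^ 2 / 4) ^ (k + 1) with hC₁
  have hC₁0 : 0 < C₁ := by positivity
  set c := min (c₁ / 2) (cA / 2) with hc
  have hc0 : 0 < c := lt_min (by positivity) (by positivity)
  have hc2 : 2 * c ≤ c₁ := by
    have := min_le_left (c₁ / 2) (cA / 2)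
    linarith
  have hcA2 : c ≤ cA / 2 := min_le_right _ _
  set C₃ := ((k : ℝ) + 1) * CW * √C₁ with hC₃
  have hC₃0 : 0 < C₃ := by positivity
  set D := CG * C₁ with hD
  have hD0 : 0 < D := by positivity
  set C := 2 * (4 / 3 * (C₃ + 16 * h ^ 2 * D)) with hC
  have hC0 : 0 < C := by positivity
  refine ⟨c, C, min thA (1 / (16 * C₁)), hc0, hC0, lt_min hthA (by positivity),
    max dA (2 * k + 1), ?_⟩
  intro d hd W tau hW0 hcard hlinks htau0 htau1 hlev
  have hdA : dA ≤ d := (le_max_left _ _).trans hd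
  have hdk : 2 * k + 1 ≤ d := (le_max_right _ _).trans hd
  rcases W.eq_empty_or_nonempty with he | hne
  · subst he
    intro f
    simp [E, N]
  obtain ⟨l, f, hl0, hE⟩ := hEV d W hW0 hne
  refine CLB_mono hE.le ?_
  have hd0 : (0 : ℝ) < d := by
    have : 0 < d := by omega
    exact_mod_cast this
  set s := √(d : ℝ) with hs
  have hs0 : 0 < s := Real.sqrt_pos.2 hd0
  have hs2 : s ^ 2 = d := Real.sq_sqrt hd0.le
  set v : ℝ := W.card / (d : ℝ) ^ (k + 1) with hv
  have hv0 : 0 ≤ v := by positivity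
  have hvs : C * W.card / (s * (d : ℝ) ^ k) = C * v * s := by
    rw [hv, pow_succ, ← hs2]
    field_simp
  rw [hvs]
  have hgoal : (h - c * tau) * s + C * v * s = (h - c * tau + C * v) * s := by ring
  rw [hgoal]
  have hct0 : 0 ≤ c * tau := mul_nonneg hc0.le htau0
  have hct1 : c * tau ≤ cA / 2 := (mul_le_of_le_one_right hc0.le htau1).trans hcA2
  by_cases hbig : l ≤ (h - c * tau) * s
  · refine hbig.trans (mul_le_mul_of_nonneg_right ?_ hs0.le)
    have : 0 ≤ C * v := by positivity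
    linarith
  push Not at hbig
  have hl1 : (h - cA / 2) * s < l :=
    lt_of_le_of_lt (mul_le_mul_of_nonneg_right (by linarith) hs0.le) hbig
  have hl2 : s / 2 ≤ l := by
    have := mul_le_mul_of_nonneg_right (show (1 : ℝ) / 2 ≤ h - cA / 2 by linarith) hs0.le
    linarith
  have hlpos : 0 < l := by linarith
  -- the links
  have hlk : ∀ i, Le (lk i W) ((1 - kap₂) * l) := by
    intro i
    have hsub : lk i W ⊆ W := Finset.filter_subset _ _
    have h1 : ((lk i W).card : ℝ) ≤ thA * (d : ℝ) ^ (k + 1) := by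
      have h2 : ((lk i W).card : ℝ) ≤ W.card := by exact_mod_cast Finset.card_le_card hsub
      refine h2.trans (hcard.trans ?_)
      exact mul_le_mul_of_nonneg_right (min_le_left _ _) (by positivity)
    have h3 := hA d hdA (lk i W) (CLB_lk_dn hW0 i) h1 (hlinks i)
    refine CLB_mono h3 ?_
    have hk4 : kap₂ ≤ 1 := by
      have := le_mul_of_one_le_right hkap₂0.le hh
      linarith
    have h4 : (1 - kap₂) * ((h - cA / 2) * s) ≤ (1 - kap₂) * l :=
      mul_le_mul_of_nonneg_left hl1.le (by linarith)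
    refine le_trans ?_ h4
    have h5 : (1 - kap₂) * (h - cA / 2) = h - cA + kap₂ * (cA / 2) := by
      have : (1 - kap₂) * (h - cA / 2) = h - cA / 2 - kap₂ * h + kap₂ * (cA / 2) := by ring
      rw [this, hkap₂h]
      ring
    have h6 : (h - cA) * s ≤ (1 - kap₂) * (h - cA / 2) * s := by
      rw [h5]
      refine mul_le_mul_of_nonneg_right ?_ hs0.le
      have : 0 ≤ kap₂ * (cA / 2) := by positivity
      linarith
    linarith
  -- localisation
  set q := N (hiK k W) f with hq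
  have hq0 : 0 ≤ q := CLB_N_nonneg _ _
  have hqv : q ≤ C₁ * v := by
    have h1 := hLCK d k W l f kap₂ hW0 hE hkap₂0 hlpos hlk
    refine h1.trans ?_
    exact CLB_q k F kap₂ l d W.card hF0.le hkap₂0 hd0 hl2 (Nat.cast_nonneg _)
  have hvth : C₁ * v ≤ 1 / 16 := by
    have h1 : v ≤ 1 / (16 * C₁) := by
      rw [hv, div_le_iff₀ (by positivity)]
      refine hcard.trans ?_
      exact mul_le_mul_of_nonneg_right (min_le_right _ _) (by positivity)
    calc C₁ * v ≤ C₁ * (1 / (16 * C₁)) := mul_le_mul_of_nonneg_left h1 hC₁0.le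
      _ = 1 / 16 := by field_simp
  obtain ⟨hct1', hBk0, hNN⟩ := hCTK d k W l f hW0 hE
  set N₁ := N (loK k W) f with hN₁
  have hN1 : N₁ = 1 - q := by linarith
  have hN2 : 1 / 2 ≤ N₁ := by linarith
  have hN3 : N₁ ≤ 1 := by linarith
  have hN0 : 0 ≤ N₁ := by linarith
  set B := Bk k W f with hB
  set E₁ := E (loK k W) f with hE₁
  -- bounds for sums of squares on the two levels
  have hlevk : ∑ y ∈ W.filter (fun y => y.card = k), f y ^ 2 ≤ N₁ := by
    refine CLB_Nsub (U := W.filter (fun y => y.card = k)) (W := loK k W) f ?_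
    intro x hx
    simp only [loK, mem_filter] at hx ⊢
    exact ⟨hx.1, by omega⟩
  have hlevk1 : ∑ x ∈ W.filter (fun x => x.card = k + 1), f x ^ 2 ≤ q := by
    refine CLB_Nsub (U := W.filter (fun y => y.card = k + 1)) (W := hiK k W) f ?_
    intro x hx
    simp only [hiK, mem_filter] at hx ⊢
    exact ⟨hx.1, by omega⟩
  have hsq4 : √q ≤ 1 / 4 := by
    rw [show (1 : ℝ) / 4 = √(1 / 16) by
      rw [show (1 : ℝ) / 16 = (1 / 4) ^ 2 by norm_num, Real.sqrt_sq (by norm_num)]]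
    exact Real.sqrt_le_sqrt (hqv.trans hvth)
  have hsN : √N₁ ≤ 1 := by
    rw [show (1 : ℝ) = √1 by simp]
    exact Real.sqrt_le_sqrt hN3
  have hBl : B ≤ l / 4 := by
    have h1 := hBIP d k W l f f hW0 hlpos.le hE.le
    have h2 : B ≤ l * √(∑ y ∈ W.filter (fun y => y.card = k), f y ^ 2) *
      √(∑ x ∈ W.filter (fun x => x.card = k + 1), f x ^ 2) := h1
    have h3 : √(∑ y ∈ W.filter (fun y => y.card = k), f y ^ 2) ≤ 1 :=
      (Real.sqrt_le_sqrt hlevk).trans hsN
    have h4 : √(∑ x ∈ W.filter (fun x => x.card = k + 1), f x ^ 2) ≤ 1 / 4 :=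
      (Real.sqrt_le_sqrt hlevk1).trans hsq4
    calc B ≤ _ := h2
      _ ≤ l * 1 * (1 / 4) := by
          refine mul_le_mul (mul_le_mul_of_nonneg_left h3 hlpos.le) h4 (Real.sqrt_nonneg _) ?_
          positivity
      _ = l / 4 := by ring
  -- the low part
  have hloDn : Dn (loK k W) := CLB_lo_dn hW0
  have hlocard : ∀ x ∈ loK k W, x.card ≤ k := by
    intro x hx
    simp only [loK, mem_filter] at hx
    exact hx.2
  have hlevlo : lev k (loK k W) = lev k W := by
    unfold lev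
    congr 1
    ext x
    simp only [loK, mem_filter]
    constructor
    · rintro ⟨⟨h1, _⟩, h3⟩
      exact ⟨h1, h3⟩
    · rintro ⟨h1, h3⟩
      exact ⟨⟨h1, h3.le⟩, h3⟩
  have hA1t := hA1 d hdk (loK k W) tau hloDn hlocard htau0 htau1 (by rw [hlevlo]; exact hlev) f
  have hA10 := hA1 d hdk (loK k W) 0 hloDn hlocard le_rfl zero_le_one (by
    rw [hlevlo]
    refine hlev.trans (mul_le_mul_of_nonneg_right (by linarith) (Nat.cast_nonneg _))) f
  rw [← hs, ← hE₁, ← hN₁] at hA1t hA10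
  rw [mul_zero, sub_zero] at hA10
  have hl4 : l ≤ 4 * (h * s) := by
    have h1 : l * N₁ ≤ h * s * N₁ + l / 4 := by linarith
    have h2 : h * s * N₁ ≤ h * s := mul_le_of_le_one_right (by positivity) hN3
    have h3 := mul_le_mul_of_nonneg_left hN2 hlpos.le
    linarith
  -- the gap
  have hem : (∅ : Finset (Fin d)) ∈ W := by
    obtain ⟨x, hx⟩ := hne
    exact hW0 x hx ∅ (Finset.empty_subset x)
  have hgap := hG d hdk (fun x => if x ∈ loK k W then f x else 0)
  rw [CLB_ball_N, CLB_ball_E hW0] at hgap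
  have hgk := (CLB_gapk (k := k) hem f).trans hgap
  rw [← hs, ← hE₁, ← hN₁] at hgk
  set X := B / s with hX
  have hX0 : 0 ≤ X := div_nonneg hBk0 hs0.le
  have hXs : X * s = B := by rw [hX]; field_simp
  have hDel : h * s * N₁ - E₁ ≤ (c * tau + X) * s := by
    have h1 : h * s * N₁ - E₁ = (h * s - l) * N₁ + B := by linarith
    have h2 : (h * s - l) * N₁ ≤ c * tau * s * N₁ :=
      mul_le_mul_of_nonneg_right (by linarith) hN0
    have h3 : c * tau * s * N₁ ≤ c * tau * s := mul_le_of_le_one_right (by positivity) hN3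
    have h4 : (c * tau + X) * s = c * tau * s + X * s := by ring
    rw [h1, h4, hXs]
    linarith
  have hgk2 : ∑ y ∈ W.filter (fun y => y.card = k), (f y - f ∅ * wt k d k) ^ 2 ≤
      CG * (c * tau + X) := by
    refine hgk.trans ?_
    have h1 : CG / s * (h * s * N₁ - E₁) ≤ CG / s * ((c * tau + X) * s) :=
      mul_le_mul_of_nonneg_left hDel (by positivity)
    refine h1.trans (le_of_eq ?_)
    field_simp
  -- the second part of B
  have hsec : ∑ x ∈ W.filter (fun x => x.card = k + 1), ∑ i ∈ x,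
      f x * (f (x.erase i) - f ∅ * wt k d k) ≤
      4 * (h * s) * √(CG * (c * tau + X)) * √(C₁ * v) := by
    have h1 := hBIP d k W l (fun y => f y - f ∅ * wt k d k) f hW0 hlpos.le hE.le
    refine h1.trans ?_
    refine mul_le_mul (mul_le_mul hl4 (Real.sqrt_le_sqrt hgk2) (Real.sqrt_nonneg _)
      (by positivity)) (Real.sqrt_le_sqrt (hlevk1.trans hqv)) (Real.sqrt_nonneg _) (by positivity)
  -- the first part of B
  obtain ⟨hw0, hwpos, _, _, _, _, hwk, _⟩ := hW d hdk
  have hf0 : 0 ≤ f ∅ := hE.nn ∅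
  have hf1 : f ∅ ≤ 1 := by
    have h1 : f ∅ ^ 2 ≤ N W f :=
      Finset.single_le_sum (f := fun x => f x ^ 2) (fun _ _ => sq_nonneg _) hem
    rw [hE.nrm] at h1
    exact (pow_le_one_iff_of_nonneg hf0 (by norm_num)).1 h1
  have hfw : f ∅ * wt k d k ≤ CW / s ^ k := by
    have h1 := hwpos k le_rfl
    calc f ∅ * wt k d k ≤ 1 * wt k d k := mul_le_mul_of_nonneg_right hf1 h1.le
      _ = wt k d k := one_mul _
      _ ≤ _ := hwk
  have hfw0 : 0 ≤ f ∅ * wt k d k := mul_nonneg hf0 (hwpos k le_rfl).le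
  have hfir : f ∅ * wt k d k * ((k : ℝ) + 1) * ∑ x ∈ W.filter (fun x => x.card = k + 1), f x ≤
      C₃ * v * s := by
    have h1 := CLB_first (k := k) W f
    have h2 : √(W.card : ℝ) * √q ≤ √(W.card : ℝ) * √(C₁ * v) :=
      mul_le_mul_of_nonneg_left (Real.sqrt_le_sqrt hqv) (Real.sqrt_nonneg _)
    have hWv : (W.card : ℝ) = v * (s ^ (k + 1)) ^ 2 := by
      have h3 : (s ^ (k + 1)) ^ 2 = (d : ℝ) ^ (k + 1) := by
        rw [← pow_mul, mul_comm (k + 1) 2, pow_mul, hs2]
      rw [h3, hv]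
      field_simp
    have h4 : √(W.card : ℝ) = √v * s ^ (k + 1) := by
      rw [hWv, Real.sqrt_mul hv0, Real.sqrt_sq (by positivity)]
    have h5 : √(C₁ * v) = √C₁ * √v := Real.sqrt_mul hC₁0.le _
    have h6 : √v * √v = v := Real.mul_self_sqrt hv0
    have h7 : ∑ x ∈ W.filter (fun x => x.card = k + 1), f x ≤ √C₁ * v * s ^ (k + 1) := by
      refine h1.trans (h2.trans (le_of_eq ?_))
      rw [h4, h5]
      calc √v * s ^ (k + 1) * (√C₁ * √v) = √C₁ * (√v * √v) * s ^ (k + 1) := by ring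
        _ = _ := by rw [h6]
    have h8 : f ∅ * wt k d k * ((k : ℝ) + 1) ≤ CW / s ^ k * ((k : ℝ) + 1) :=
      mul_le_mul_of_nonneg_right hfw (by positivity)
    have h9 : 0 ≤ ∑ x ∈ W.filter (fun x => x.card = k + 1), f x :=
      Finset.sum_nonneg fun x _ => hE.nn x
    calc _ ≤ CW / s ^ k * ((k : ℝ) + 1) * (√C₁ * v * s ^ (k + 1)) :=
          mul_le_mul h8 h7 h9 (by positivity)
      _ = C₃ * v * s := by
          rw [hC₃, pow_succ]
          field_simp
  -- the inequality for X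
  have hXX : X ≤ C₃ * v + 4 * h * (√(c * tau + X) * √(D * v)) := by
    have h1 : B ≤ C₃ * v * s + 4 * (h * s) * √(CG * (c * tau + X)) * √(C₁ * v) := by
      rw [hB, CLB_B W f (f ∅ * wt k d k)]
      linarith
    have h2 : √(CG * (c * tau + X)) * √(C₁ * v) = √(c * tau + X) * √(D * v) := by
      rw [← Real.sqrt_mul (by positivity), ← Real.sqrt_mul (by positivity), hD]
      congr 1
      ring
    have h3 : B ≤ (C₃ * v + 4 * h * (√(c * tau + X) * √(D * v))) * s := by
      rw [← h2]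
      exact h1.trans (le_of_eq (by ring))
    rw [hX, div_le_iff₀ hs0]
    exact h3
  have hfin := CLB_scal h s tau c c₁ X v C₃ D l N₁ hs0 hv0 htau0 hc0.le hc2 hX0 hN2 hXX hD0.le
    (by rw [hXs]; linarith)
  exact hfin

end

end Pool.Agent.PLR
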